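import Pool.Agent.Work.MP_db9399_sx.Prep
import Pool.Agent.Work.MP_db9399_sl_helper38.MAIN0

/-!
# MP_db9399, PHASE 2, END (helper38): from `Prep` to the total colouring
-/

set_option autoImplicit false

namespace Pool.Agent.Work.MP_db9399_sx.helper38

open Finset Classical
open Pool.Agent.Work.MP_db9399_all (nb)
open Pool.Agent.Work.MP_db9399_dn (IsMat Tot)
open Pool.Agent.Work.MP_db9399_bg (HPre)
open Pool.Agent.Work.MP_db9399_sl (InS Same Gout Gss Gin Gex Out Vert Spt Bip)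
open Pool.Agent.Work.MP_db9399_sv (Cor Mis slo ms FE GsL GxL bt slL Bas Lab Big Sma Sit Stmt_SERV)
open Pool.Agent.Work.MP_db9399_sw (shs sms wt wl od ac avl SHH Gxh Grh Lgt)
open Pool.Agent.Work.MP_db9399_sx

universe u

section mono
variable {V : Type u} [Fintype V] {k : ℕ}

theorem wl_nonneg {G : SimpleGraph V} {d : ℕ} (h : ∀ v, (nb G v).card ≤ d) (Hs Y : Finset V) :
    0 ≤ wl G d Hs Y := by
  unfold wl
  refine sum_nonneg fun v _ => ?_
  have h1 : (nb G v ∩ Y).card ≤ d := (card_le_card inter_subset_left).trans (h v)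
  have h2 : ((nb G v ∩ Y).card : ℝ) ≤ d := by exact_mod_cast h1
  linarith

theorem wl_le_wt {G : SimpleGraph V} {d : ℕ} (h : ∀ v, (nb G v).card ≤ d) (Hs Y : Finset V) :
    wl G d Hs Y ≤ wt G d Y := by
  unfold wl wt
  refine sum_le_sum_of_subset_of_nonneg sdiff_subset fun v _ _ => ?_
  have h1 : (nb G v ∩ Y).card ≤ d := (card_le_card inter_subset_left).trans (h v)
  have h2 : ((nb G v ∩ Y).card : ℝ) ≤ d := by exact_mod_cast h1
  linarith

theorem Grp.mono {θ θ2 θ' θ'2 η η2 : ℝ} {G EH : SimpleGraph V} {d : ℕ}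
    {Ys : Finset (Finset V)} {UH Hs : Finset V} {c0 tu : V → Fin k}
    (h : Grp θ θ' η G EH d Ys UH Hs c0 tu) (hθ : θ ≤ θ2) (hθ' : θ' ≤ θ'2) (hη : η ≤ η2) :
    Grp θ2 θ'2 η2 G EH d Ys UH Hs c0 tu := by
  have hd : (0 : ℝ) ≤ d := Nat.cast_nonneg d
  exact
  { deg := h.deg
    pre := h.pre
    dis := h.dis
    low := fun Y hY => (mul_le_mul_of_nonneg_right (by linarith) hd).trans (h.low Y hY)
    upp := fun Y hY => (h.upp Y hY).trans (mul_le_mul_of_nonneg_right (by linarith) hd)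
    din := fun Y hY v hv => (mul_le_mul_of_nonneg_right (by linarith) hd).trans (h.din Y hY v hv)
    inn := fun Y hY v hv => (h.inn Y hY v hv).trans (mul_le_mul_of_nonneg_right hθ hd)
    sum := fun Y hY => (h.sum Y hY).trans (mul_le_mul_of_nonneg_right
      (mul_le_mul_of_nonneg_right hη hd) (Nat.cast_nonneg _))
    uh2 := h.uh2
    hsS := h.hsS
    lig := fun Y hY v hv hv' => (mul_le_mul_of_nonneg_right (by linarith) hd).trans
      (h.lig Y hY v hv hv')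
    hsc := h.hsc }

theorem Prep.mono {ι κ : Type} {δ δn π θ θn θ' θ'n δ1 ε2 c ε εn x ρ η ηn a0 : ℝ}
    {G EH : SimpleGraph V} {d : ℕ}
    {Ys : Finset (Finset V)} {UH Gd Hs : Finset V} {c0 tu cc : V → Fin k}
    {t : V → V → Fin k} {E : V → Finset (Fin k)} {K0 : Finset (Fin k)}
    {C : Fin 3 → Finset (Fin k)} {p : V → Fin 3} {a : V → Bool} {Z : Finset V}
    {μ : V → Fin k} {E1 : Finset (Fin k)} {vb : Fin k → Option ι} {sy : Fin k → κ × κ}
    {u : V → Option ι} {j0 : ι} {sp : V → κ} {hM : V → V → Prop}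
    {Fy : Finset V → Finset (Fin k)} {Mt : SimpleGraph V} {pn : Finset V → ℕ}
    (h : Prep δ π θ θ' δ1 ε2 c ε x ρ η a0 G EH d Ys UH Gd Hs c0 tu cc t E K0 C p a Z μ E1 vb sy
      u j0 sp hM Fy Mt pn) (hδ : δ ≤ δn) (hθ : θ ≤ θn) (hθ' : θ' ≤ θ'n) (hε : ε ≤ εn)
    (hη : η ≤ ηn) :
    Prep δn π θn θ'n δ1 ε2 c εn x ρ ηn a0 G EH d Ys UH Gd Hs c0 tu cc t E K0 C p a Z μ E1 vb sy
      u j0 sp hM Fy Mt pn := by
  have hw : ∀ Y, ε * wl G d Hs Y ≤ εn * wl G d Hs Y := fun Y =>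
    mul_le_mul_of_nonneg_right hε (wl_nonneg h.grp.deg Hs Y)
  exact
  { grp := Grp.mono h.grp hθ hθ' hη
    out := MP_db9399_sl.helper38.Out.mono hδ h.out (fun _ => Subset.rfl) h.out.Cc
    Cu := h.Cu
    mis := h.mis
    kss := h.kss
    typ := h.typ
    edg := h.edg
    hst := h.hst
    den := h.den
    FyK := h.FyK
    cnt := h.cnt
    spc := fun Y h1 h2 => (h.spc Y h1 h2).trans (hw Y)
    gss := fun Y h1 h2 => (h.gss Y h1 h2).trans (hw Y)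
    spl := fun Y h1 h2 => (h.spl Y h1 h2).trans (hw Y)
    hMl := fun Y h1 h2 => (h.hMl Y h1 h2).trans (add_le_add le_rfl (hw Y))
    big := h.big
    uh := fun Y hY => le_trans (mul_le_mul_of_nonneg_right (mul_le_mul_of_nonneg_left
      (by linarith) (Nat.cast_nonneg _)) (Nat.cast_nonneg _)) (h.uh Y hY)
    spS := fun Y hY => (h.spS Y hY).trans (mul_le_mul_of_nonneg_right hε (Nat.cast_nonneg _))
    gds := h.gds
    gmem := h.gmem
    gupp := h.gupp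
    gind := h.gind
    gde := h.gde
    Fyc := h.Fyc
    pnF := h.pnF
    mat := h.mat
    mta := h.mta
    mtn := h.mtn }

theorem Mid.mono {ι : Type} {δ δn π s sn : ℝ} {G EH : SimpleGraph V} {d : ℕ}
    {Ys : Finset (Finset V)} {UH Gd Hs : Finset V} {c0 tu cc : V → Fin k}
    {t : V → V → Fin k} {E F0 : V → Finset (Fin k)} {K0 : Finset (Fin k)}
    {C : Fin 3 → Finset (Fin k)} {p : V → Fin 3} {a : V → Bool} {Z : Finset V}
    {E1 : Finset (Fin k)} {vb : Fin k → Option ι} {j0 : ι} {t' : V → V → Fin k}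
    {E' : V → Finset (Fin k)}
    (h : Mid δ π s G EH d Ys UH Gd Hs c0 tu cc t E F0 K0 C p a Z E1 vb j0 t' E')
    (hδ : δ ≤ δn) (hs : s ≤ sn) :
    Mid δn π sn G EH d Ys UH Gd Hs c0 tu cc t E F0 K0 C p a Z E1 vb j0 t' E' :=
  { out := MP_db9399_sl.helper38.Out.mono hδ h.out (fun _ => Subset.rfl) h.out.Cc
    tx := h.tx
    EE := h.EE
    EK := h.EK
    EL := h.EL
    ldn := fun Y hY b => (h.ldn Y hY b).trans (mul_le_mul_of_nonneg_right hs (Nat.cast_nonneg d))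
    gdn := h.gdn
    F0K := h.F0K
    F0n := h.F0n
    F0u := h.F0u
    F0d := h.F0d
    F0c := h.F0c }

end mono

/-- Block END. -/
theorem stmt_END (hMIDX : Stmt_MIDX.{u}) (hSITX : Stmt_SITX.{u}) (hSERV : Stmt_SERV.{u})
    (hFINX : Stmt_FINX.{u}) : Stmt_END.{u} := by
  obtain ⟨π, δf, θf, hπ1, hπ2, hδf, hθf, F⟩ := hFINX
  obtain ⟨z, hz, S1⟩ := hSITX
  obtain ⟨δ1, hδ1, R1⟩ := hSERV z hz
  obtain ⟨ρ, ε2, hρ, hε2, S2⟩ := S1 δ1 hδ1
  obtain ⟨δs, θs, hδs, hθs, R2⟩ := R1 ρ hρ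
  obtain ⟨θx, hθx, S3⟩ := S2 δs θs hδs hθs
  refine ⟨π, min (min θf θx) (1 / 100), δ1, ε2, hπ1, hπ2, lt_min (lt_min hθf hθx) (by norm_num),
    min_le_right _ _, hδ1, hε2, ?_⟩
  intro c x hc hc1 hx hxθ
  have hθ1 : min (min θf θx) (1 / 100) ≤ θf := (min_le_left _ _).trans (min_le_left _ _)
  have hθ2 : min (min θf θx) (1 / 100) ≤ θx := (min_le_left _ _).trans (min_le_right _ _)
  have hθ3 : min (min θf θx) (1 / 100) ≤ 1 / 100 := min_le_right _ _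
  generalize min (min θf θx) (1 / 100) = θ at hxθ hθ1 hθ2 hθ3
  obtain ⟨εx, δx, sx, hεx, hδx, hsx, S4⟩ := S3 c hc hc1
  have hδ'0 : 0 < min (x / 2) δf := lt_min (by linarith) hδf
  have hδ'1 : min (x / 2) δf ≤ x / 2 := min_le_left _ _
  have hδ'2 : min (x / 2) δf ≤ δf := min_le_right _ _
  generalize min (x / 2) δf = δ' at hδ'0 hδ'1 hδ'2
  obtain ⟨ηs, dR, hηs, R3⟩ := R2 δ' hδ'0
  obtain ⟨ηx, dS, hηx, S5⟩ := S4 ηs hηs
  obtain ⟨ηf, hηf, F1⟩ := F x hx (hxθ.trans hθ1)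
  have hm0 : 0 < min (min δx δf) (1 / 1000 : ℝ) := lt_min (lt_min hδx hδf) (by norm_num)
  have hm1 : min (min δx δf) (1 / 1000 : ℝ) ≤ δx := (min_le_left _ _).trans (min_le_left _ _)
  have hm2 : min (min δx δf) (1 / 1000 : ℝ) ≤ δf := (min_le_left _ _).trans (min_le_right _ _)
  have hm3 : min (min δx δf) (1 / 1000 : ℝ) ≤ 1 / 1000 := min_le_right _ _
  generalize min (min δx δf) (1 / 1000 : ℝ) = δm at hm0 hm1 hm2 hm3
  refine ⟨min εx (1 / 10), δm / 2, min ηx ηf, lt_min hεx (by norm_num), by linarith,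
    lt_min hηx hηf, ?_⟩
  have hε1 : min εx (1 / 10) ≤ εx := min_le_left _ _
  have hε2' : min εx (1 / 10) ≤ 1 / 10 := min_le_right _ _
  have hε0 : 0 < min εx (1 / 10) := lt_min hεx (by norm_num)
  generalize min εx (1 / 10) = ε at hε1 hε2' hε0
  have hη1 : min ηx ηf ≤ ηx := min_le_left _ _
  have hη2 : min ηx ηf ≤ ηf := min_le_right _ _
  generalize min ηx ηf = η at hη1 hη2
  intro ρ0 hρ0
  have hs0 : 0 < min sx (x / 2) := lt_min hsx (by linarith)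
  have hs1 : min sx (x / 2) ≤ sx := min_le_left _ _
  have hs2 : min sx (x / 2) ≤ x / 2 := min_le_right _ _
  generalize min sx (x / 2) = s at hs0 hs1 hs2
  obtain ⟨θ', hθ', M1⟩ := hMIDX (δm / 2) π ρ0 s (by linarith) hπ1 hπ2 (by linarith) hρ0 hs0
  refine ⟨θ', hθ', fun a0 ha0 => ?_⟩
  obtain ⟨dM, M2⟩ := M1 a0
  obtain ⟨dF, F2⟩ := F1 a0 ha0
  refine ⟨max (max dR dS) (max dM dF), ?_⟩
  intro V _ k ι κ G EH d Ys UH Gd Hs c0 tu cc t E K0 C p a Z μ E1 vb sy u j0 sp hM Fy Mt pn hd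
    hP
  have hdR : dR ≤ d := (le_max_left _ _).trans ((le_max_left _ _).trans hd)
  have hdS : dS ≤ d := (le_max_right _ _).trans ((le_max_left _ _).trans hd)
  have hdM : dM ≤ d := (le_max_left _ _).trans ((le_max_right _ _).trans hd)
  have hdF : dF ≤ d := (le_max_right _ _).trans ((le_max_right _ _).trans hd)
  obtain ⟨F0, t', E', hMid⟩ := M2 θ δ1 ε2 c ε x η G EH d Ys UH Gd Hs c0 tu cc t E K0 C p a Z μ
    E1 vb sy u j0 sp hM Fy Mt pn hdM hθ3 hP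
  obtain ⟨nL, nD, Pm, Hb, hSit, hn⟩ := S5 (δm / 2) π θ' x ρ0 a0 G EH d Ys UH Gd Hs c0 tu cc t E
    K0 C p a Z μ E1 vb sy u j0 sp hM Fy Mt pn F0 t' E' hdS
    (Prep.mono hP le_rfl hθ2 le_rfl hε1 hη1) (Mid.mono hMid (by linarith) hs1)
  obtain ⟨t'', E'', T, hCor, hT1, hT2, hT3, hT4⟩ := R3 G EH d Ys (shs d Ys) UH (UH ∪ Gd) c0 tu cc
    t' E' F0 K0 μ Pm nL nD (fun Y => Fy Y ∪ (Y ∩ UH).image c0) Hb hdR hSit
  exact F2 (δm / 2) θ' δ1 ε2 c ε ρ0 s δ' G EH d Ys UH Gd Hs c0 tu cc t E K0 C p a Z μ E1 vb sy u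
    j0 sp hM Fy Mt pn F0 t' E' t'' E'' T hdF hs2 hδ'1 hδ'2 hc hc1 hε0 hε2'
    (Prep.mono hP le_rfl hθ1 le_rfl le_rfl hη2) (Mid.mono hMid (by linarith) le_rfl)
    hCor hT1 hT2 hT3 (fun Y hY => by
      rw [hn Y hY]
      exact hT4 Y hY)

end Pool.Agent.Work.MP_db9399_sx.helper38
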