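import Pool.Agent.Work.MP_db9399_sx.Pre
import Pool.Agent.Work.MP_db9399_sx_helper38.END

/-!
# MP_db9399, PHASE 2, MAIN1 (helper38): graphs without almost bipartite parts
-/

set_option autoImplicit false

namespace Pool.Agent.Work.MP_db9399_sx.helper38

open Finset Classical
open Pool.Agent.Work.MP_db9399_all (nb)
open Pool.Agent.Work.MP_db9399_dn (IsMat Tot)
open Pool.Agent.Work.MP_db9399_bg (HPre)
open Pool.Agent.Work.MP_db9399_sl (InS Same Gout Gss Gin Gex Out Vert Spt Bip Stmt_STR)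
open Pool.Agent.Work.MP_db9399_sl.helper38 (mem_nb card_nb sum_nb_sdiff hpre_of card_UH_le)
open Pool.Agent.Work.MP_db9399_sx
open _root_.MP_db9399_co

universe u

/-- MAIN1: all graphs of large degree without almost bipartite parts. -/
def Stmt_MAIN1 : Prop :=
  ∀ g : ℝ, 0 < g → ∃ d0 : ℕ, ∀ (V : Type u) [Fintype V] (G : SimpleGraph V)
    [DecidableRel G.Adj] (k : ℕ), d0 ≤ G.maxDegree →
    (∀ S T : Finset V, Disjoint S T → (∀ t ∈ T, (1 - g) * G.maxDegree ≤ (G.degree t : ℝ)) →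
      (S.card : ℝ) ≤ (1 + g) * T.card →
      g * G.maxDegree * T.card ≤ ((G.interedges T (univ \ S)).card : ℝ)) →
    G.maxDegree + 2 ≤ k →
    ∀ H : G.Subgraph, IsDistThreeMatching H → ∀ (c₀ : V → Fin k) (t₀ : Sym2 V → Fin k),
      IsTotalColoring H.spanningCoe c₀ t₀ →
      ∃ (c : V → Fin k) (t : Sym2 V → Fin k), IsTotalColoring G c t ∧
        (∀ v ∈ H.verts, c v = c₀ v) ∧ ∀ e ∈ H.edgeSet, t e = t₀ e

theorem MAIN1 (hSTR : Stmt_STR.{u}) (hPREP : Stmt_PREP.{u}) (hEND : Stmt_END.{u}) :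
    Stmt_MAIN1.{u} := by
  obtain ⟨π, θ, δ1, ε2, hπ1, hπ2, hθ0, hθ1, hδ1, hε2, E1⟩ := hEND
  obtain ⟨ζ, hζ0, hζ1, hR⟩ := hSTR θ hθ0 (by linarith)
  obtain ⟨c, x, hc, hc1, hx, hxθ, P1⟩ := hPREP π θ δ1 ε2 hπ1 hπ2 hθ0 hθ1 hδ1 hε2 ζ hζ0
    (by linarith)
  obtain ⟨ε, δ, η1, hε, hδ, hη1, E2⟩ := E1 c x hc hc1 hx hxθ
  obtain ⟨ρ, hρ, P2⟩ := P1 ε δ hε hδ
  obtain ⟨θ', hθ', E3⟩ := E2 ρ hρ
  obtain ⟨η0, hη0, P3⟩ := P2 θ' hθ'
  have hη : 0 < min η0 η1 := lt_min hη0 hη1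
  intro g hg
  obtain ⟨g', dR, hg'0, hg'1, hg'2, hR⟩ := hR (min η0 η1) g hη hg
  obtain ⟨a0, dP, ha0, P4⟩ := P3 (min η0 η1) hη (min_le_left _ _) g' hg'0 hg'2
  obtain ⟨dE, E4⟩ := E3 a0 ha0
  refine ⟨max (max dR dP) (max dE 1), ?_⟩
  intro V _ G _ k hmax hbip hk H hH c₀ t₀ h₀
  set d : ℕ := G.maxDegree with hd
  have hdR : dR ≤ d := by
    have := hmax; simp only [max_le_iff] at this; exact this.1.1
  have hdP : dP ≤ d := by
    have := hmax; simp only [max_le_iff] at this; exact this.1.2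
  have hdE : dE ≤ d := by
    have := hmax; simp only [max_le_iff] at this; exact this.2.1
  have hd1 : 1 ≤ d := by
    have := hmax; simp only [max_le_iff] at this; exact this.2.2
  have hdeg : ∀ v, (nb G v).card ≤ d := by
    intro v
    rw [card_nb]
    exact G.degree_le_maxDegree v
  have hcardV : d ≤ Fintype.card V := by
    rcases isEmpty_or_nonempty V with hV | hV
    · rw [hd, SimpleGraph.maxDegree_of_isEmpty]
      exact Nat.zero_le _
    · exact (SimpleGraph.maxDegree_lt_card_verts G).le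
  have hBip : Bip g G d := by
    intro S T hST hT hc
    rw [sum_nb_sdiff]
    refine hbip S T hST ?_ hc
    intro t ht
    have := hT t ht
    rwa [card_nb] at this
  obtain ⟨Ys, hY⟩ := hR G d hdR hdeg hBip
  have hk0 : 0 < k := lt_of_lt_of_le (Nat.succ_pos _) hk
  obtain ⟨UH, EH, tu, hPre, hUmem, hEH, htu⟩ := hpre_of hk0 G H hH c₀ t₀ h₀
  have hU2 : ∀ Y ∈ Ys, (Y ∩ UH).card ≤ 2 := by
    intro Y hYY
    exact card_UH_le hPre hd1 hθ1 (hY.low Y hYY) (hY.inn Y hYY)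
  obtain ⟨ι, κ, Gd, Hs, cc, t, E, K0, C, p, a, Z, μ, E1', vb, sy, u, j0, sp, hM, Fy, Mt, pn,
    hP⟩ := P4 G d k Ys UH c₀ EH tu hdP hcardV hk hdeg hY hPre hU2
  have hP' : Prep δ π θ θ' δ1 ε2 c ε x ρ η1 a0 G EH d Ys UH Gd Hs c₀ tu cc t E K0 C p a Z μ E1'
      vb sy u j0 sp hM Fy Mt pn :=
    Prep.mono hP le_rfl le_rfl le_rfl le_rfl (min_le_right _ _)
  obtain ⟨c', t'', hTot, hcU, htE⟩ := E4 G EH d Ys UH Gd Hs c₀ tu cc t E K0 C p a Z μ E1' vb sy
    u j0 sp hM Fy Mt pn hdE hP'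
  obtain ⟨g1', g2', g3', g4'⟩ := hTot
  refine ⟨c', Sym2.lift ⟨fun a b => t'' a b, fun a b => g2' _ _⟩, ⟨?_, ?_, ?_⟩, ?_, ?_⟩
  · intro u v huv
    exact g1' u v huv
  · intro u v w huv huw hvw heq
    apply hvw
    have hv1 : v ∈ (nb G u : Set V) := by
      rw [Finset.mem_coe, mem_nb]; exact huv
    have hw1 : w ∈ (nb G u : Set V) := by
      rw [Finset.mem_coe, mem_nb]; exact huw
    exact g3' u hv1 hw1 heq
  · intro u v huv
    exact g4' u v huv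
  · intro v hv
    exact hcU v ((hUmem v).2 hv)
  · intro e he
    induction e using Sym2.ind with
    | _ a b =>
      have hab : H.Adj a b := he
      have h1 := htE a b ((hEH a b).2 hab)
      have h2 := htu a b hab
      show t'' a b = t₀ s(a, b)
      rw [h1, h2]

end Pool.Agent.Work.MP_db9399_sx.helper38
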