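import Pool.Agent.Work.MP_db9399_sx_helper38.PREP

/-!
# MP_db9399, PHASE 2, PREP (helper38): the assembly
-/

set_option autoImplicit false

namespace Pool.Agent.Work.MP_db9399_sx.helper38

open Finset Classical
open Pool.Agent.Work.MP_db9399_all (nb)
open Pool.Agent.Work.MP_db9399_dn (IsMat Tot)
open Pool.Agent.Work.MP_db9399_bg (den cl HPre)
open Pool.Agent.Work.MP_db9399_lh (Lh ce su sp pt)
open Pool.Agent.Work.MP_db9399_ot.helper1 (Kp Lb kt)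
open Pool.Agent.Work.MP_db9399_sl (InS Same Gout Gss Gin Gex Out Vert Spt Bip Nsc)
open Pool.Agent.Work.MP_db9399_sl.helper38 (mem_nb)
open Pool.Agent.Work.MP_db9399_sv (Cor Mis slo ms FE GsL GxL bt slL Bas Lab Big Sma Sit)
open Pool.Agent.Work.MP_db9399_sw (shs sms wt wl od ac avl SHH Gxh Grh Lgt mM avgL TQ LabD ColD
  Exs fiR Stmt_OVS)
open Pool.Agent.Work.MP_db9399_vt (fb outer)
open Pool.Agent.Work.MP_db9399_sx

universe u

/-- type mod 3 -/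
def umf {M1 R0 : ℕ} (q : Lb M1 R0) : ZMod 3 :=
  match q.2.2 with
  | some w => ((w.2 : ℕ) : ZMod 3)
  | none => 0

theorem map_snd_eq {M1 R0 : ℕ} {q : Option (Kp M1 × Fin R0)} {i : Fin R0}
    (h : q.map Prod.snd = some i) : ∃ κ', q = some (κ', i) := by
  rw [Option.map_eq_some_iff] at h
  obtain ⟨⟨a, b⟩, h1, h2⟩ := h
  simp only at h2
  subst h2
  exact ⟨a, h1⟩

/-- Block PREP. -/
theorem stmt_PREP (hGDX : Stmt_GDX.{u}) (hTLB : Stmt_TLB.{u}) (hTLA : Stmt_TLA.{u})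
    (hOWX : Stmt_OWX.{u}) (hAVB : Stmt_AVB.{u}) (hAVG : Stmt_AVG.{u}) (hMTP : Stmt_MTP.{u})
    (hDENX : Stmt_DENX.{u}) (hUHC : Stmt_UHC.{u}) (hKSS : Stmt_KSS) (hOVS : Stmt_OVS.{u}) :
    Stmt_PREP.{u} := by
  intro π θ δ1 ε2 hπ1 hπ2 hθ0 hθ1 hδ1 hε2 ζ hζ0 hζ1
  obtain ⟨κ1, hκ1, hκ1', W1⟩ := hOWX
  obtain ⟨ηW, hηW, W2⟩ := W1 ζ hζ0 hζ1
  have ha0 : 0 < κ1 * ζ / 100 := by positivity
  have hkz : κ1 * ζ ≤ ζ := by nlinarith
  have ha1 : κ1 * ζ / 100 ≤ 1 := by linarith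
  have ha4 : κ1 * ζ / 100 ≤ ζ / 4 := by linarith
  generalize κ1 * ζ / 100 = a at ha0 ha1 ha4 W2
  obtain ⟨δ0, hδ0, B1⟩ := hAVB a ha0 ha1
  obtain ⟨RmD, KmD, σD, hσD, N1⟩ := hDENX ε2 hε2
  have hx0 : 0 < min θ (a / 10) := lt_min hθ0 (by linarith)
  have hxθ : min θ (a / 10) ≤ θ := min_le_left _ _
  have hxa : min θ (a / 10) ≤ a / 10 := min_le_right _ _
  refine ⟨a, min θ (a / 10), ha0, ha1, hx0, hxθ, ?_⟩
  generalize min θ (a / 10) = x at hx0 hxθ hxa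
  intro ε δ hε hδ
  have hεp0 : 0 < min ε (1 / 10) := lt_min hε (by norm_num)
  have hεp1 : min ε (1 / 10) ≤ 1 / 10 := min_le_right _ _
  have hεp2 : min ε (1 / 10) ≤ ε := min_le_left _ _
  generalize min ε (1 / 10) = εp at hεp0 hεp1 hεp2
  obtain ⟨a0, εg, ha0', hεg, hεg1, dG, G1⟩ := hAVG ζ εp hζ0 hζ1 hεp0 hεp1
  have hεt0 : 0 < min εg εp := lt_min hεg hεp0
  have hεt1 : min εg εp ≤ εg := min_le_left _ _
  have hεt2 : min εg εp ≤ εp := min_le_right _ _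
  generalize min εg εp = εt at hεt0 hεt1 hεt2
  obtain ⟨RmB, sB, hsB, T1⟩ := hTLB εt hεt0
  obtain ⟨KmA, sA, hsA, T2⟩ := hTLA εt hεt0
  have hδo0 : 0 < min δ δ0 := lt_min hδ hδ0
  have hδo1 : min δ δ0 ≤ δ := min_le_left _ _
  have hδo2 : min δ δ0 ≤ δ0 := min_le_right _ _
  generalize min δ δ0 = δo at hδo0 hδo1 hδo2
  obtain ⟨M1, R0, n, e, θo, hRm, hR0, h3, hθo, hθo1, O1⟩ := hOVS δo π (max RmB RmD) hδo0
    (by linarith) hπ2
  have hn0 : (0 : ℝ) < 1 / (2 * ((n : ℝ) + 1)) := by positivity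
  refine ⟨1 / (2 * ((n : ℝ) + 1)), hn0, ?_⟩
  intro θ' hθ'
  have hθ20 : 0 < min θ' θo := lt_min hθ' hθo
  have hθ21 : min θ' θo ≤ θ' := min_le_left _ _
  have hθ22 : min θ' θo ≤ θo := min_le_right _ _
  generalize min θ' θo = θ2 at hθ20 hθ21 hθ22
  have hεd0 : 0 < min εt (x * a0 / 10 ^ 5) := lt_min hεt0 (by positivity)
  have hεd1 : min εt (x * a0 / 10 ^ 5) ≤ εt := min_le_left _ _
  have hεd2 : min εt (x * a0 / 10 ^ 5) ≤ x * a0 / 10 ^ 5 := min_le_right _ _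
  generalize min εt (x * a0 / 10 ^ 5) = εd at hεd0 hεd1 hεd2
  have hεd3 : εd ≤ 1 / 10 := by linarith
  obtain ⟨ηG, dGD, hηG, D1⟩ := hGDX εd hεd0 hεd3
  have hξ0 : 0 < min (min ηG ηW) (min (min εg (1 / 10 ^ 4)) (δo / 8)) :=
    lt_min (lt_min hηG hηW) (lt_min (lt_min hεg (by norm_num)) (by linarith))
  have hξ1 : min (min ηG ηW) (min (min εg (1 / 10 ^ 4)) (δo / 8)) ≤ ηG :=
    (min_le_left _ _).trans (min_le_left _ _)
  have hξ2 : min (min ηG ηW) (min (min εg (1 / 10 ^ 4)) (δo / 8)) ≤ ηW :=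
    (min_le_left _ _).trans (min_le_right _ _)
  have hξ3 : min (min ηG ηW) (min (min εg (1 / 10 ^ 4)) (δo / 8)) ≤ εg :=
    (min_le_right _ _).trans ((min_le_left _ _).trans (min_le_left _ _))
  have hξ4 : min (min ηG ηW) (min (min εg (1 / 10 ^ 4)) (δo / 8)) ≤ 1 / 10 ^ 4 :=
    (min_le_right _ _).trans ((min_le_left _ _).trans (min_le_right _ _))
  have hξ5 : min (min ηG ηW) (min (min εg (1 / 10 ^ 4)) (δo / 8)) ≤ δo / 8 :=
    (min_le_right _ _).trans (min_le_right _ _)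
  generalize min (min ηG ηW) (min (min εg (1 / 10 ^ 4)) (δo / 8)) = ξ at hξ0 hξ1 hξ2 hξ3 hξ4 hξ5
  refine ⟨min (θ2 * ξ) ξ, lt_min (by positivity) hξ0, ?_⟩
  intro η hη hη0 g hg hg1
  have hη1 : η ≤ θ2 * ξ := hη0.trans (min_le_left _ _)
  have hη2 : η ≤ ξ := hη0.trans (min_le_right _ _)
  obtain ⟨κ, hκ, hκ1, W3⟩ := W2 g hg hg1
  obtain ⟨l, m, r, K, K1, S, hK1, hl, hm, O2⟩ := O1 g (1 / 10) κ (max KmA KmD) hg hg1
    (by norm_num) le_rfl hκ hκ1
  obtain ⟨σW, sW, dW, hσW, hsW, W4⟩ := W3 l m r K K1 S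
  obtain ⟨dB, B2⟩ := B1 δo x hδo2 hx0 hxa
  obtain ⟨dTB, T3⟩ := T1 M1 R0 ((le_max_left _ _).trans hRm)
  obtain ⟨dTA, T4⟩ := T2 l m r K K1 S Unit ((le_max_left _ _).trans hK1) hl
  obtain ⟨dN, N2⟩ := N1 M1 R0 l m r K K1 S ((le_max_right _ _).trans hRm)
    ((le_max_right _ _).trans hK1)
  obtain ⟨dM, M2⟩ := hMTP a ha0 ha1
  have hσ0 : 0 < min σW σD := lt_min hσW hσD
  have hσ1 : min σW σD ≤ σW := min_le_left _ _
  have hσ2 : min σW σD ≤ σD := min_le_right _ _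
  generalize min σW σD = σ at hσ0 hσ1 hσ2
  have hs0 : 0 < min (min sB sA) sW := lt_min (lt_min hsB hsA) hsW
  have hs1 : min (min sB sA) sW ≤ sB := (min_le_left _ _).trans (min_le_left _ _)
  have hs2 : min (min sB sA) sW ≤ sA := (min_le_left _ _).trans (min_le_right _ _)
  have hs3 : min (min sB sA) sW ≤ sW := min_le_right _ _
  generalize min (min sB sA) sW = s at hs0 hs1 hs2 hs3
  obtain ⟨dO, O3⟩ := O2 Unit 2 σ s hσ0 hs0
  refine ⟨a0, max (max (max dG dGD) (max dW dB)) (max (max dTB dTA) (max (max dN dM) (max dO 2))),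
    ha0', ?_⟩
  intro V _ G d k Ys UH c0 EH tu hd hcard hk hdeg hSpt hPre hU2
  simp only [max_le_iff] at hd
  obtain ⟨⟨⟨hdG, hdGD⟩, hdW, hdB⟩, ⟨hdTB, hdTA⟩, ⟨hdN, hdM⟩, hdO, hd2⟩ := hd
  have hd0 : 0 < d := by omega
  have hdR : (0 : ℝ) < d := by exact_mod_cast hd0
  -- the heavy vertices
  have hsum : ∀ Y ∈ Ys, wt G d Y ≤ η * d * Y.card := fun Y hY => hSpt.sum Y hY
  have hHc := card_Hvs hd0 hθ20 hη1 hdeg hSpt.dis hsum
  have hHdef : ∀ v, v ∈ Hvs θ2 G d Ys ↔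
      ∃ Y ∈ Ys, v ∈ Y ∧ ((nb G v ∩ Y).card : ℝ) < (1 - θ2) * d := by
    intro v
    rw [Hvs, mem_filter]
    exact ⟨fun h => h.2, fun h => ⟨mem_univ _, h⟩⟩
  generalize Hvs θ2 G d Ys = Hs at hHc hHdef
  have hHx : ∀ ξ' : ℝ, ξ ≤ ξ' → ∀ Y ∈ Ys, ((Y ∩ Hs).card : ℝ) ≤ ξ' * Y.card := fun ξ' h Y hY =>
    (hHc Y hY).trans (mul_le_mul_of_nonneg_right h (Nat.cast_nonneg _))
  have hGrp : Grp θ θ2 η G EH d Ys UH Hs c0 tu :=
    { deg := hdeg
      pre := hPre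
      dis := hSpt.dis
      low := hSpt.low
      upp := hSpt.upp
      din := hSpt.deg
      inn := hSpt.inn
      sum := hsum
      uh2 := hU2
      hsS := fun v hv => by
        obtain ⟨Y, hY, h1, _⟩ := (hHdef v).1 hv
        exact ⟨Y, hY, h1⟩
      lig := fun Y hY v hv hv' => by
        by_contra hn
        push Not at hn
        exact hv' ((hHdef v).2 ⟨Y, hY, hv, hn⟩)
      hsc := fun Y hY => by
        have h1 := hHx (1 / 10 ^ 4) hξ4 Y hY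
        have h2 : ((10 ^ 4 * (Y ∩ Hs).card : ℕ) : ℝ) ≤ (Y.card : ℝ) := by
          push_cast
          linarith
        exact_mod_cast h2 }
  have hY2 : ∀ Y ∈ Ys, Y.card ≤ 2 * d := by
    intro Y hY
    have h1 := hSpt.upp Y hY
    have h2 : (Y.card : ℝ) ≤ ((2 * d : ℕ) : ℝ) := by push_cast; nlinarith
    exact_mod_cast h2
  -- the guards
  obtain ⟨Gd, hGd⟩ := D1 θ θ2 G EH d Ys UH Hs c0 tu hdGD hθ1
    (Grp.mono hGrp le_rfl le_rfl (hη2.trans hξ1)) (hHx ηG hξ1)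
  have hGdg : Gds εg G EH d Ys UH Hs Gd c0 := Gds.mono hdeg hGd (by linarith)
  -- first labels
  have hlow9 : ∀ Y ∈ Ys, ∀ v ∈ Y, (9 / 10 : ℝ) * d ≤ ((nb G v ∩ Y).card : ℝ) := by
    intro Y hY v hv
    have := hSpt.deg Y hY v hv
    nlinarith
  have hligo : ∀ Y ∈ Ys, ∀ v ∈ Y, v ∉ Hs → (1 - θo) * d ≤ ((nb G v ∩ Y).card : ℝ) := by
    intro Y hY v hv hv'
    have := hGrp.lig Y hY v hv hv'
    nlinarith
  have hHδ : ∀ Y ∈ Ys, ((Y ∩ Hs).card : ℝ) ≤ δo / 4 * d := by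
    intro Y hY
    have h1 := hHx (δo / 8) hξ5 Y hY
    have h2 : (Y.card : ℝ) ≤ 2 * d := by exact_mod_cast hY2 Y hY
    nlinarith
  have hGddeg : ∀ v, (nb (Gdd G d Ys Hs) v).card ≤ 2 * d := by
    intro v
    have : nb (Gdd G d Ys Hs) v ⊆ nb G v := by
      intro w hw
      rw [mem_nb] at hw ⊢
      exact hw.1
    have h1 := card_le_card this
    have h2 := hdeg v
    omega
  have hpow3 : d ^ 3 ≤ d ^ 10 := Nat.pow_le_pow_right hd0 (by norm_num)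
  have hpow4 : d ^ 3 + d ^ 4 ≤ d ^ 10 := by
    have h1 : d ^ 3 ≤ d ^ 9 := Nat.pow_le_pow_right hd0 (by norm_num)
    have h2 : d ^ 4 ≤ d ^ 9 := Nat.pow_le_pow_right hd0 (by norm_num)
    have h3 : d ^ 10 = d ^ 9 * d := pow_succ _ _
    nlinarith [pow_pos hd0 9]
  obtain ⟨J, instJ, Φ, ct, tt, hTQ, hLB⟩ := T3 θ θ2 η εd G EH d Ys UH Hs Gd c0 tu ⟨0, hR0⟩ hdTB
    hθ1 hεd3 hGrp hGd
  obtain ⟨lb, hlbD, hlbT, D, K0, E1, cs, ow, sy, hCol, O5⟩ := O3 G d k Ys Hs UH c0 EH tu hdO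
    hcard hk hdeg hY2 hSpt.dis hligo hlow9 hGrp.hsS hHδ hSpt.bip hSpt.nsc hPre hU2
    (fun _ => Gdd G d Ys Hs) J Φ ct tt (fun _ v => hGddeg v) (TQn.to_TQ hTQ hs1 hpow3)
  have hLBF := hLB lb hlbT
  -- second labels
  obtain ⟨JA, instJA, ΦA, ctA, ttA, hTQA, hLA⟩ := T4 θ θ2 η εd δ1 G EH d Ys UH Hs Gd c0 tu
    (fun v => umf (lb v)) (((⟨0, hR0⟩ : Fin R0) : ℕ) : ZMod 3) hdTA hθ1 hεd3 hGrp hGd
  obtain ⟨JW, instJW, ΦW, ctW, ttW, hTQW, hOW⟩ := W4 θ θ2 η εd G EH d Ys UH Hs Gd c0 tu hdW hθ1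
    hεd3 (hη2.trans hξ2) hSpt hGrp (hHx ηW hξ2) hGd
  set GO : SimpleGraph V :=
    { Adj := fun v w => G.Adj v w ∧ ¬ InS Ys v ∧ ¬ InS Ys w
      symm := ⟨fun _ _ h => ⟨h.1.symm, h.2.2, h.2.1⟩⟩
      loopless := ⟨fun v h => G.loopless.irrefl v h.1⟩ } with hGO
  have hQ' : ∀ i : Fin 2, ∀ v,
      (nb ((fun i : Fin 2 => if i = 0 then Gdd G d Ys Hs else GO) i) v).card ≤ 2 * d := by
    intro i v
    by_cases hi : i = 0
    · simp only [hi, if_true]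
      exact hGddeg v
    · simp only [hi, if_false]
      have : nb GO v ⊆ nb G v := by
        intro w hw
        rw [mem_nb] at hw ⊢
        exact hw.1
      have h1 := card_le_card this
      have h2 := hdeg v
      omega
  obtain ⟨lab, hlabD, hlabT, O6⟩ := O5 (fun i : Fin 2 => if i = 0 then Gdd G d Ys Hs else GO)
    (JA ⊕ JW) (Sum.elim ΦA ΦW) (Sum.elim ctA ctW) (Sum.elim ttA ttW) hQ'
    (TQn.to_TQ (TQn.sum hTQA hTQW hs2 hs3) le_rfl hpow4)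
  have hLAF := hLA lab (fun j => hlabT (Sum.inl j))
  have hlD0 : LabD (Gdd G d Ys Hs) d σ lab := by
    have := hlabD 0
    simpa using this
  have hlD1 : LabD GO d σ lab := by
    have := hlabD 1
    simpa using this
  obtain ⟨cc, hcow, hOWF⟩ := hOW lab (fun j => hlabT (Sum.inr j)) (fun GO' hGO' => by
      have : GO' = GO := by
        ext v w
        rw [hGO' v w]
      rw [this]
      exact LabD.mono hlD1 hσ1) K0 ow hCol.K0c (fun b q h => (hCol.owK b q h).1) hCol.owl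
    hCol.owu
  obtain ⟨t, E, μ, hOut, hExs⟩ := O6 cc hOWF.cU hOWF.cK hcow hOWF.pr
  -- palettes
  have hCt : ∀ j : Fin 3, ∃ C' : Finset (Fin k), C' ⊆ K0.filter (fun b => b ∉ E1 ∧
      ∃ i, cs b = some i ∧ kt (e.symm i).1 = some j) ∧ C'.card = ⌈π * d⌉₊ := by
    intro j
    have h1 : ⌈π * d⌉₊ ≤ (K0.filter (fun b => b ∉ E1 ∧
        ∃ i, cs b = some i ∧ kt (e.symm i).1 = some j)).card := Nat.ceil_le.2 (hOut.Cc j)
    obtain ⟨C', h2, h3⟩ := exists_subset_card_eq h1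
    exact ⟨C', h2, h3⟩
  choose C hCs hCc using hCt
  have hC1 : ∀ j, π * d ≤ ((C j).card : ℝ) := by
    intro j
    rw [hCc j]
    exact Nat.le_ceil _
  have hC2 : ∀ j, ((C j).card : ℝ) ≤ π * d + 1 := by
    intro j
    rw [hCc j]
    exact (Nat.ceil_lt_add_one (by nlinarith)).le
  have hOut' := MP_db9399_sl.helper38.Out.mono le_rfl hOut hCs hC1
  -- types
  have htyp : ∀ v (i : Fin R0), Lgt Ys Hs v → v ∉ UH → (lb v).2.2.map Prod.snd = some i →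
      ∀ b ∈ E v, (b ∉ E1 ∧ (cs b).map (fun i => (e.symm i).2) = some i) ∨
        (b ∈ E1 ∧ (sp (lab v).1 = (sy b).1 ∨ sp (lab v).1 = (sy b).2)) := by
    intro v i hv hvU hu b hb
    obtain ⟨κ', h1⟩ := map_snd_eq hu
    rcases hExs.typ v κ' i hv hvU h1 b hb with ⟨h2, i', h4, h5⟩ | h2
    · left
      refine ⟨h2, ?_⟩
      rw [h4]
      simp [h5]
    · right
      exact h2
  have hdead : ∀ Y ∈ shs d Ys, Y ∉ sms G d Hs Ys →
      ((Fyd a εp G d Ys UH Hs c0 K0 cc Y).card : ℝ) * Y.card ≤ (1 - a) * wl G d Hs Y := by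
    intro Y hY hYs
    refine hOWF.dead Y hY hYs _ ?_
    intro b hb
    rw [Fyd, if_neg hYs, mem_filter] at hb
    exact hb.2
  have huhc := hUHC θ θ2 η a εp G EH d Ys UH Hs c0 tu cc K0 hθ1 hd0 hεp1 hGrp
  obtain ⟨Mt, pn, hMt1, hMt2, hMt3, hMt4, hMt5⟩ := M2 θ θ2 η G EH d Ys UH Hs Gd c0 tu
    (Fyd a εp G d Ys UH Hs c0 K0 cc) hdM hθ1 hGrp hdead (fun Y hY => (huhc Y hY).2)
    (fun v hv => (hGd.mem v hv).2.2.1)
  have hlog0 : 0 ≤ Real.log d ^ 8 := by positivity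
  have hP : Prep δo π θ θ2 δ1 ε2 a εp x (1 / (2 * ((n : ℝ) + 1))) η a0 G EH d Ys UH Gd Hs c0 tu
      cc t E K0 C (fun v => (lb v).1) (fun v => (lb v).2.1)
      (univ.filter (fun v => (lb v).2.2 = none ∨ v ∈ UH ∨ v ∈ Hs)) μ E1
      (fun b => (cs b).map (fun i => (e.symm i).2)) sy (fun v => (lb v).2.2.map Prod.snd)
      (⟨0, hR0⟩ : Fin R0) (fun v => sp (lab v).1)
      (fun v y => mM (lab y).1 ∨ pt (lab y).1 = umf (lb v) ∨
        pt (lab y).1 = (((⟨0, hR0⟩ : Fin R0) : ℕ) : ZMod 3))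
      (Fyd a εp G d Ys UH Hs c0 K0 cc) Mt pn :=
    { grp := hGrp
      out := hOut'
      Cu := hC2
      mis := fun y hy => hExs.mis y hy
      kss := hKSS κ d D K0 E1 cs ow e ⟨0, hR0⟩ hCol C hCs
      typ := htyp
      edg := by
        intro v y i hv hvU hy hvy hu
        obtain ⟨κ', h1⟩ := map_snd_eq hu
        have h6 : (Gxh G Ys Hs).Adj v y := by
          refine ⟨hvy, ?_, ?_⟩
          · rintro ⟨Y, hY, _, h8⟩
            exact hy ⟨Y, hY, h8⟩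
          · rintro ⟨_, h8⟩
            exact hy h8.1
        rcases hExs.edg v y κ' i hv hvU h1 h6 with ⟨h2, i', h4, h5⟩ | h2
        · left
          refine ⟨h2, ?_⟩
          simp [h4, h5]
        · right
          exact h2
      hst := by
        intro v y i hv hvU hy hvy hu hor
        obtain ⟨κ', h1⟩ := map_snd_eq hu
        by_cases hyU : y ∈ UH
        · obtain ⟨h2, h4⟩ := hExs.misU y hyU hy
          refine ⟨h2, ?_, ?_⟩
          · rw [h4]; simp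
          · rw [h4]; simp
        · have hnm := hor.resolve_left hyU
          rw [not_or, not_or] at hnm
          obtain ⟨h2, h4⟩ := hExs.misO y hy hyU hnm.1
          refine ⟨h2, ?_, ?_⟩
          · intro h5
            rw [Option.map_eq_some_iff] at h5
            obtain ⟨i', h6, h7⟩ := h5
            apply hnm.2.1
            have h8 := h4 i' h6
            rw [← h8, umf, h1]
            simp only [fiR, h7]
          · intro h5
            rw [Option.map_eq_some_iff] at h5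
            obtain ⟨i', h6, h7⟩ := h5
            apply hnm.2.2
            have h8 := h4 i' h6
            rw [← h8]
            simp only [fiR, h7]
      den := by
        intro y i s1 s2 hy
        have h1 := N2 θ θ2 η εd G EH d Ys UH Hs Gd c0 tu ⟨0, hR0⟩ lb lab hdN hGrp hGd
          (LabD.mono (hlbD 0) hσ2) (LabD.mono hlD0 hσ2) y i s1 s2 hy
        convert h1
      FyK := by
        intro Y _
        rw [Fyd]
        split_ifs
        · exact filter_subset _ _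
        · exact filter_subset _ _
      cnt := hdead
      spc := (LBF.mono hdeg hLBF hεt2).spc
      gss := (Gds.mono hdeg hGd (hεd1.trans hεt2)).gss
      spl := (LAF.mono hdeg hLAF hεt2).spl
      hMl := (LAF.mono hdeg hLAF hεt2).hMl
      big := B2 θ θ2 η π a εp G EH d Ys UH Hs Gd c0 tu cc t E K0 C (fun v => (lb v).1)
        (fun v => (lb v).2.1) _ hdB hθ1 hGrp hOWF hOut'
      uh := fun Y hY => (huhc Y hY).1
      spS := (LBF.mono hdeg hLBF hεt2).spS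
      gds := G1 θ θ2 η δ1 a a G EH d Ys UH Hs Gd c0 tu cc E K0 E1
        (fun b => (cs b).map (fun i => (e.symm i).2)) sy (fun v => (lb v).2.2.map Prod.snd)
        (⟨0, hR0⟩ : Fin R0) (fun v => sp (lab v).1) _ hdG hθ1 ha4 hGrp hSpt.hub (hHx εg hξ3)
        hGdg (LBF.mono hdeg hLBF hεt1) (LAF.mono hdeg hLAF hεt1) hOWF htyp
      gmem := hGd.mem
      gupp := by
        intro Y hY
        have h1 := hGd.t0 Y hY
        rw [abs_le] at h1
        nlinarith [h1.2]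
      gind := hGd.ind
      gde := by
        intro Y hY
        refine (hGd.ss Y hY).trans (mul_le_mul_of_nonneg_right ?_ (Nat.cast_nonneg _))
        calc εd * Real.log d ^ 8 ≤ x * a0 / 10 ^ 5 * Real.log d ^ 8 :=
              mul_le_mul_of_nonneg_right hεd2 hlog0
          _ = x / 10 ^ 5 * (a0 * Real.log d ^ 8) := by ring
      Fyc := hMt2
      pnF := hMt3
      mat := hMt1
      mta := hMt4
      mtn := hMt5 }
  exact ⟨Fin R0, Fin (K1 + 1), Gd, Hs, cc, t, E, K0, C, _, _, _, μ, E1, _, sy, _, _, _, _, _,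
    Mt, pn, Prep.mono hP hδo1 le_rfl hθ21 hεp2 le_rfl⟩

end Pool.Agent.Work.MP_db9399_sx.helper38
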