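import Pool.Agent.Work.MP_db9399_sw_helper84.NRMV
import Pool.Agent.Work.MP_db9399_sw_helper1.OUTV
import Pool.Agent.Work.MP_db9399_sw_helper94.OVS
import Pool.Agent.Work.MP_db9399_sw_helper94.LSB
import Pool.Agent.Work.MP_db9399_sw_helper21.LABQ
import Pool.Agent.Work.MP_db9399_sw_helper83.RND1H2
import Pool.Agent.Work.MP_db9399_sw_helper43.CORE2
import Pool.Agent.Work.MP_db9399_sw_helper43.ASM2
import Pool.Agent.Work.MP_db9399_sw_helper46.P0ALL2
import Pool.Agent.Work.MP_db9399_sw_helper76.PEALL2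
import Pool.Agent.Work.MP_db9399_sw_helper31.CAPE2
import Pool.Agent.Work.MP_db9399_sw_helper54.EXTC
import Pool.Agent.Work.MP_db9399_sw_helper54.VMIX
import Pool.Agent.Work.MP_db9399_sw_helper54.CHO
import Pool.Agent.Work.MP_db9399_sw_helper39.VSHORT
import Pool.Agent.Work.MP_db9399_ot_helper1.Final
import Pool.Agent.Work.MP_db9399_hc_helper34.GROWH
import Pool.Agent.Work.MP_db9399_hc_helper34.T1H
import Pool.Agent.Work.MP_db9399_vt_helper54.SPVE
import Pool.Agent.Work.MP_db9399_vt_helper51.STEPK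
import Pool.Agent.Work.MP_db9399_vt_helper51.RNDK
import Pool.Agent.Work.MP_db9399_sl_helper59.STR
import Pool.Agent.Work.MP_db9399_sl_helper49.FIN
import Pool.Agent.Work.MP_db9399_sl_helper84.VSEQ
import Pool.Agent.Work.MP_db9399_sl_helper94.VSP
import Pool.Agent.Work.MP_db9399_sv_helper10.GEO
import Pool.Agent.Work.MP_db9399_sv_helper12.All
import Pool.Agent.Work.MP_db9399_sv_helper79.SSE3
import Pool.Agent.Work.MP_db9399_sx_helper1.FINX
import Pool.Agent.Work.MP_db9399_sx_helper1.MTP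
import Pool.Agent.Work.MP_db9399_sx_helper12.AVB
import Pool.Agent.Work.MP_db9399_sx_helper46.AVG
import Pool.Agent.Work.MP_db9399_sx_helper59.KSS
import Pool.Agent.Work.MP_db9399_sx_helper79.MIDX
import Pool.Agent.Work.MP_db9399_sx_helper79.SITX
import Pool.Agent.Work.MP_db9399_sx_helper12.GDX
import Pool.Agent.Work.MP_db9399_sx_helper6.TLB
import Pool.Agent.Work.MP_db9399_sx_helper83.UHC
import Pool.Agent.Work.MP_db9399_sx_helper83.DENX
import Pool.Agent.Work.MP_db9399_sx_helper94.OwxU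
import Pool.Agent.Work.MP_db9399_sx_helper76.TLA
import Pool.Agent.Work.MP_db9399_lc_helper85.EMBB
import Pool.Agent.Work.MP_db9399_sx_helper38.PREP2
import Pool.Agent.Work.MP_db9399_sx_helper38.MAIN1

/-!
# MP_db9399, PHASE 2: the unconditional statements (helper38)
-/

set_option autoImplicit false

namespace Pool.Agent.Work.MP_db9399_sx.helper38

universe u

theorem spve : MP_db9399_vt.Stmt_SPVE.{u} :=
  MP_db9399_vt_helper54.stmt_SPVE
    (MP_db9399_vt.stmt_STEPK (MP_db9399_vt.stmt_RNDK MP_db9399_all.stmt_LLLI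
      MP_db9399_all.stmt_RNH MP_db9399_all.stmt_RNK))

theorem core2 : MP_db9399_sw.Stmt_CORE2.{u} :=
  MP_db9399_sw.helper43.stmt_CORE2
    (MP_db9399_sw.helper83.stmt_RND1H2 MP_db9399_lh.helper35.sxp MP_db9399_bg.helper21.stmt_SXR
      (MP_db9399_hc.helper34.stmt_T1H MP_db9399_lh.helper35.t1) MP_db9399_lh.helper35.stmt_PAT
      MP_db9399_hc.helper34.stmt_GROWH MP_db9399_bg.helper27.stmt_DEEPF
      MP_db9399_bg.helper59.stmt_HIT2 MP_db9399_bg.helper29.stmt_TUT2)
    (MP_db9399_sw.helper31.stmt_CAPE2 MP_db9399_lh.helper35.t1 MP_db9399_lh.helper35.stmt_PAT)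

theorem nrmv : MP_db9399_sw.Stmt_NRMV.{u} :=
  MP_db9399_sw.helper84.stmt_NRMV MP_db9399_sw.helper21.stmt_LABQ
    (MP_db9399_lh.helper35.stmt_ESX MP_db9399_lh.helper35.sxp) core2
    (MP_db9399_ot.helper67.stmt_NDEC MP_db9399_bg.helper31.stmt_FAC)
    MP_db9399_ot.helper29.stmt_UPAR MP_db9399_ot.helper34.stmt_LEFT
    MP_db9399_sw.helper46.stmt_P0ALL2 MP_db9399_sw.helper76.stmt_PEALL2
    MP_db9399_sw.helper43.stmt_ASM2

theorem ovs : MP_db9399_sw.Stmt_OVS.{u} :=
  MP_db9399_sw.helper94.stmt_OVS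
    (MP_db9399_sw.helper1.stmt_OUTV_of MP_db9399_lc.helper85.stmt_EMBB
      MP_db9399_sw.helper21.stmt_LABQ nrmv (MP_db9399_sw.helper54.stmt_EXTC spve))

theorem vmix : MP_db9399_sw.Stmt_VMIX.{u} :=
  MP_db9399_sw_helper54.stmt_VMIX
    (MP_db9399_sw_helper39.stmt_VSHORT MP_db9399_sw.helper94.stmt_LSB
      MP_db9399_sw_helper54.stmt_CHO)
    (MP_db9399_sl_helper84.VSEQ MP_db9399_sl.helper94.VSP)

theorem prep : Stmt_PREP.{u} :=
  stmt_PREP helper12.stmt_GDX helper6.stmt_TLB helper76.stmt_TLA helper94.stmt_OWXU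
    helper12.stmt_AVB helper46.stmt_AVG helper1.stmt_MTP helper83.stmt_DENX helper83.stmt_UHC
    helper59.stmt_KSS ovs

theorem end_ : Stmt_END.{u} :=
  stmt_END (helper79.stmt_MIDX MP_db9399_sv.helper79.stmt_SSE3)
    (helper79.stmt_SITX MP_db9399_sv.helper10.stmt_GEO) MP_db9399_sv.helper12.serv
    (helper1.stmt_FINX vmix MP_db9399_sl_helper49.FIN)

/-- MAIN1, unconditional. -/
theorem main1 : Stmt_MAIN1.{u} := MAIN1 MP_db9399_sl_helper59.STR prep end_

end Pool.Agent.Work.MP_db9399_sx.helper38
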