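import Pool.Agent.Work.MP_db9399_sx.Pre
import Pool.Agent.Work.MP_db9399_sx_helper38.END

/-!
# MP_db9399, PHASE 2, PREP (helper38): from the spots to `Prep`
-/

set_option autoImplicit false

namespace Pool.Agent.Work.MP_db9399_sx.helper38

open Finset Classical
open Pool.Agent.Work.MP_db9399_all (nb)
open Pool.Agent.Work.MP_db9399_dn (IsMat Tot)
open Pool.Agent.Work.MP_db9399_bg (den cl HPre)
open Pool.Agent.Work.MP_db9399_lh (Lh ce su sp pt)
open Pool.Agent.Work.MP_db9399_ot.helper1 (Kp Lb kt)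
open Pool.Agent.Work.MP_db9399_sl (InS Same Gout Gss Gin Gex Out Vert Spt Bip Nsc)
open Pool.Agent.Work.MP_db9399_sv (Cor Mis slo ms FE GsL GxL bt slL Bas Lab Big Sma Sit)
open Pool.Agent.Work.MP_db9399_sw (shs sms wt wl od ac avl SHH Gxh Grh Lgt mM avgL TQ LabD ColD
  Exs fiR Stmt_OVS)
open Pool.Agent.Work.MP_db9399_vt (fb outer)
open Pool.Agent.Work.MP_db9399_sx

universe u

section tests
variable {V : Type u} [Fintype V]

theorem TQn.to_TQ {M : ℕ} {s s' : ℝ} {d : ℕ} {T : Type} [Fintype T] {J : Type u} [Fintype J]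
    {Φ : J → (V → T) → ℝ} {c : J → V → ℝ} {t : J → ℝ} (h : TQn M s d Φ c t) (hs : s' ≤ s)
    (hM : M ≤ d ^ 10) : TQ s' d Φ c t where
  c0 := h.c0
  lip := h.lip
  num := fun v => (h.num v).trans hM
  t0 := h.t0
  big := fun j => by
    refine le_trans ?_ (h.big j)
    have h1 : 0 ≤ Real.log d ^ 2 + ((univ.filter (fun v => c j v ≠ 0)).card : ℝ) / d := by
      positivity
    have h2 : 0 ≤ ∑ v, c j v ^ 2 := sum_nonneg fun v _ => sq_nonneg _
    exact mul_le_mul_of_nonneg_right (mul_le_mul_of_nonneg_right hs h1) h2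

theorem TQn.sum {M1 M2 : ℕ} {s1 s2 s : ℝ} {d : ℕ} {T : Type} {J1 J2 : Type u} [Fintype J1]
    [Fintype J2] {Φ1 : J1 → (V → T) → ℝ} {c1 : J1 → V → ℝ} {t1 : J1 → ℝ}
    {Φ2 : J2 → (V → T) → ℝ} {c2 : J2 → V → ℝ} {t2 : J2 → ℝ}
    (h1 : TQn M1 s1 d Φ1 c1 t1) (h2 : TQn M2 s2 d Φ2 c2 t2) (hs1 : s ≤ s1) (hs2 : s ≤ s2) :
    TQn (M1 + M2) s d (Sum.elim Φ1 Φ2) (Sum.elim c1 c2) (Sum.elim t1 t2) where
  c0 := fun j v => by
    rcases j with j | j
    · exact h1.c0 j v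
    · exact h2.c0 j v
  lip := fun j v f f' h => by
    rcases j with j | j
    · exact h1.lip j v f f' h
    · exact h2.lip j v f f' h
  num := fun v => by
    have e : (univ.filter (fun j : J1 ⊕ J2 => Sum.elim c1 c2 j v ≠ 0)) ⊆
        (univ.filter (fun j => c1 j v ≠ 0)).map ⟨Sum.inl, Sum.inl_injective⟩ ∪
        (univ.filter (fun j => c2 j v ≠ 0)).map ⟨Sum.inr, Sum.inr_injective⟩ := by
      intro j hj
      rw [mem_filter] at hj
      rw [mem_union, mem_map, mem_map]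
      rcases j with j | j
      · left
        exact ⟨j, mem_filter.2 ⟨mem_univ _, hj.2⟩, rfl⟩
      · right
        exact ⟨j, mem_filter.2 ⟨mem_univ _, hj.2⟩, rfl⟩
    refine (card_le_card e).trans ((card_union_le _ _).trans ?_)
    rw [card_map, card_map]
    exact Nat.add_le_add (h1.num v) (h2.num v)
  t0 := fun j => by
    rcases j with j | j
    · exact h1.t0 j
    · exact h2.t0 j
  big := fun j => by
    rcases j with j | j
    · refine le_trans ?_ (h1.big j)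
      have e1 : 0 ≤ Real.log d ^ 2 + ((univ.filter (fun v => c1 j v ≠ 0)).card : ℝ) / d := by
        positivity
      have e2 : 0 ≤ ∑ v, c1 j v ^ 2 := sum_nonneg fun v _ => sq_nonneg _
      exact mul_le_mul_of_nonneg_right (mul_le_mul_of_nonneg_right hs1 e1) e2
    · refine le_trans ?_ (h2.big j)
      have e1 : 0 ≤ Real.log d ^ 2 + ((univ.filter (fun v => c2 j v ≠ 0)).card : ℝ) / d := by
        positivity
      have e2 : 0 ≤ ∑ v, c2 j v ^ 2 := sum_nonneg fun v _ => sq_nonneg _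
      exact mul_le_mul_of_nonneg_right (mul_le_mul_of_nonneg_right hs2 e1) e2

theorem LabD.mono {T : Type} [Fintype T] {G : SimpleGraph V} {d : ℕ} {σ σ' : ℝ} {lab : V → T}
    (h : LabD G d σ lab) (hσ : σ ≤ σ') : LabD G d σ' lab where
  deg := fun v P => (h.deg v P).trans (mul_le_mul_of_nonneg_right hσ (Nat.cast_nonneg d))
  sps := fun v P => (h.sps v P).trans (by
    have : σ * (d : ℝ) ^ 2 ≤ σ' * (d : ℝ) ^ 2 := mul_le_mul_of_nonneg_right hσ (by positivity)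
    linarith)

theorem LBF.mono {ι : Type} {ε ε' : ℝ} {G : SimpleGraph V} {d : ℕ} {Ys : Finset (Finset V)}
    {Hs Gd : Finset V} {u : V → Option ι} {j0 : ι} (hdeg : ∀ v, (nb G v).card ≤ d)
    (h : LBF ε G d Ys Hs Gd u j0) (hε : ε ≤ ε') : LBF ε' G d Ys Hs Gd u j0 where
  spc := fun Y h1 h2 => (h.spc Y h1 h2).trans
    (mul_le_mul_of_nonneg_right hε (wl_nonneg hdeg Hs Y))
  spS := fun Y hY => (h.spS Y hY).trans (mul_le_mul_of_nonneg_right hε (Nat.cast_nonneg _))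
  gd := fun Y hY i => (h.gd Y hY i).trans (mul_le_mul_of_nonneg_right hε (by positivity))

theorem LAF.mono {κ : Type} {ε ε' δ1 : ℝ} {G : SimpleGraph V} {d : ℕ} {Ys : Finset (Finset V)}
    {UH Hs Gd : Finset V} {sp : V → κ} {hm : V → V → Prop} (hdeg : ∀ v, (nb G v).card ≤ d)
    (h : LAF ε δ1 G d Ys UH Hs Gd sp hm) (hε : ε ≤ ε') : LAF ε' δ1 G d Ys UH Hs Gd sp hm where
  spl := fun Y h1 h2 => (h.spl Y h1 h2).trans
    (mul_le_mul_of_nonneg_right hε (wl_nonneg hdeg Hs Y))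
  hMl := fun Y h1 h2 => (h.hMl Y h1 h2).trans (add_le_add le_rfl
    (mul_le_mul_of_nonneg_right hε (wl_nonneg hdeg Hs Y)))
  gd := fun Y hY s s' => (h.gd Y hY s s').trans (mul_le_mul_of_nonneg_right hε (by positivity))

theorem Gds.mono {k : ℕ} {ε ε' : ℝ} {G EH : SimpleGraph V} {d : ℕ} {Ys : Finset (Finset V)}
    {UH Hs Gd : Finset V} {c0 : V → Fin k} (hdeg : ∀ v, (nb G v).card ≤ d)
    (h : Gds ε G EH d Ys UH Hs Gd c0) (hε : ε ≤ ε') : Gds ε' G EH d Ys UH Hs Gd c0 where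
  mem := h.mem
  ind := h.ind
  ss := fun Y hY => (h.ss Y hY).trans (mul_le_mul_of_nonneg_right
    (mul_le_mul_of_nonneg_right hε (by positivity)) (Nat.cast_nonneg _))
  gss := fun Y h1 h2 => (h.gss Y h1 h2).trans
    (mul_le_mul_of_nonneg_right hε (wl_nonneg hdeg Hs Y))
  out := h.out
  t0 := fun Y hY => (h.t0 Y hY).trans (mul_le_mul_of_nonneg_right hε (by positivity))
  t1 := fun Y hY w => le_trans (mul_le_mul_of_nonneg_right (by linarith) (by positivity))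
    (h.t1 Y hY w)
  t2 := fun Y hY b => (h.t2 Y hY b).trans (mul_le_mul_of_nonneg_right (by linarith)
    (by positivity))

end tests

section heavy
variable {V : Type u} [Fintype V]

/-- the heavy vertices -/
noncomputable def Hvs (θ : ℝ) (G : SimpleGraph V) (d : ℕ) (Ys : Finset (Finset V)) : Finset V :=
  univ.filter (fun v => ∃ Y ∈ Ys, v ∈ Y ∧ ((nb G v ∩ Y).card : ℝ) < (1 - θ) * d)

theorem card_Hvs {θ η ξ : ℝ} {G : SimpleGraph V} {d : ℕ} {Ys : Finset (Finset V)}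
    (hd : 0 < d) (hθ : 0 < θ) (hη : η ≤ θ * ξ) (hdeg : ∀ v, (nb G v).card ≤ d)
    (hdis : ∀ Y ∈ Ys, ∀ Y' ∈ Ys, Y ≠ Y' → Disjoint Y Y')
    (hsum : ∀ Y ∈ Ys, wt G d Y ≤ η * d * Y.card) :
    ∀ Y ∈ Ys, ((Y ∩ Hvs θ G d Ys).card : ℝ) ≤ ξ * Y.card := by
  intro Y hY
  have hd' : (0 : ℝ) < d := by exact_mod_cast hd
  have h1 : ((Y ∩ Hvs θ G d Ys).card : ℝ) * (θ * d) ≤ wt G d Y := by
    unfold wt
    have h2 : ∑ v ∈ Y ∩ Hvs θ G d Ys, (θ * d : ℝ) ≤
        ∑ v ∈ Y ∩ Hvs θ G d Ys, ((d : ℝ) - (nb G v ∩ Y).card) := by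
      refine sum_le_sum fun v hv => ?_
      rw [mem_inter, Hvs, mem_filter] at hv
      obtain ⟨Y', hY', hv1, hv2⟩ := hv.2.2
      have : Y' = Y := by
        by_contra hne
        exact (disjoint_left.1 (hdis Y' hY' Y hY hne)) hv1 hv.1
      subst this
      linarith
    rw [sum_const, nsmul_eq_mul] at h2
    refine h2.trans (sum_le_sum_of_subset_of_nonneg inter_subset_left fun v _ _ => ?_)
    have h3 : (nb G v ∩ Y).card ≤ d := (card_le_card inter_subset_left).trans (hdeg v)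
    have h4 : ((nb G v ∩ Y).card : ℝ) ≤ d := by exact_mod_cast h3
    linarith
  have h5 := h1.trans (hsum Y hY)
  have h6 : η * d * Y.card ≤ θ * ξ * d * Y.card :=
    mul_le_mul_of_nonneg_right (mul_le_mul_of_nonneg_right hη hd'.le) (Nat.cast_nonneg _)
  have h7 : ((Y ∩ Hvs θ G d Ys).card : ℝ) * (θ * d) ≤ (ξ * Y.card) * (θ * d) := by
    calc ((Y ∩ Hvs θ G d Ys).card : ℝ) * (θ * d) ≤ θ * ξ * d * Y.card := h5.trans h6
      _ = (ξ * Y.card) * (θ * d) := by ring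
  exact le_of_mul_le_mul_right h7 (by positivity)

end heavy

end Pool.Agent.Work.MP_db9399_sx.helper38
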